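import Pool.Agent.NH88.SR.Main
import Pool.Agent.NH88.SR.Mem

/-!
# Counting optimal reversal sorting sequences is #P-hard

`numOpt l` is the number of optimal sorting sequences of the signed permutation `l`.  The function
is hard for `#P` under polynomial-time Turing reductions, and it is in `FP^#P`.
-/

namespace Pool.Agent.Results.MP_f00251_lc.SharpPHard

open Pool.Agent.NPC Pool.Agent.NPC.Cnt Pool.Agent.TH700 Pool.Agent.NH88.SR

theorem result : SharpPHard (strFn numOpt) ∧ InFPSharpP (strFn numOpt) := ⟨main, inFPSharpP⟩

end Pool.Agent.Results.MP_f00251_lc.SharpPHard
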