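import Pool.Agent.NH88.SR.Tight

/-!
# The number of optimal sorting sequences of permutations whose distance is half the number of
breakpoints is #P-complete

`numTight l` is the number of optimal sorting sequences of `l` if the reversal distance of `l` is
half the number of its breakpoints, and `0` otherwise.
-/

namespace Pool.Agent.Results.MP_f00251_lc.TightComplete

open Pool.Agent.NPC Pool.Agent.NPC.Cnt Pool.Agent.TH700 Pool.Agent.NH88.SR

theorem result : SharpP (strFn numTight) ∧ SharpPHard (strFn numTight) :=
  ⟨sharpP_tight, hard_tight⟩

end Pool.Agent.Results.MP_f00251_lc.TightComplete
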